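import Pool.Agent.W25.UN.Stm2

set_option autoImplicit false

namespace Pool.Agent.W398.UNFO

open Finset Pool.Agent.W25.UN Pool.Agent.H410R2 Pool.Agent.H362R2.CM

/-- the root of a form -/
noncomputable def rho (p : ℕ) [Fact p.Prime] (u w : ℤ) : ZMod p := -(w : ZMod p) / (u : ZMod p)

theorem rho_spec {p : ℕ} [Fact p.Prime] {u w : ℤ} (hu : ¬ (p : ℤ) ∣ u) (n : ℕ) :
    p ∣ (u * n + w).natAbs ↔ (n : ZMod p) = rho p u w := by
  have hu0 : (u : ZMod p) ≠ 0 := fun h => hu ((ZMod.intCast_zmod_eq_zero_iff_dvd u p).1 h)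
  rw [← Int.natCast_dvd, ← ZMod.intCast_zmod_eq_zero_iff_dvd]
  push_cast
  unfold rho
  rw [eq_div_iff hu0]
  constructor
  · intro h
    linear_combination h
  · intro h
    linear_combination h

theorem root {p : ℕ} [Fact p.Prime] {u w : ℤ} (hu : ¬ (p : ℤ) ∣ u) (n : ℕ) :
    p ∣ (u * n + w).natAbs ↔ n ≡ (rho p u w).val [MOD p] := by
  rw [rho_spec hu, ← ZMod.natCast_eq_natCast_iff, ZMod.natCast_val, ZMod.cast_id', id]

theorem sd : SdLZ := by
  intro k u w P hP hu hex
  refine ⟨fun t => hP t.1 t.2, Subtype.val_injective, fun t => Nat.coprime_one_right _, ?_, ?_⟩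
  · intro t j
    have : Fact (t.1).Prime := ⟨hP t.1 t.2⟩
    exact ⟨_, fun n => root (hu t.1 t.2 j) n⟩
  · intro t i j n h1 h2
    by_contra hij
    apply hex t.1 t.2 i j hij
    unfold LZ at h1 h2
    rw [← Int.natCast_dvd] at h1 h2
    have e : u i * w j - u j * w i = u i * (u j * n + w j) - u j * (u i * n + w i) := by ring
    rw [e]
    exact dvd_sub (Dvd.dvd.mul_left h2 _) (Dvd.dvd.mul_left h1 _)

theorem Om_eq {k : ℕ} (u w : Option (Fin k) → ℤ) (p : ℕ) [Fact p.Prime]
    (hu : ∀ j, ¬ (p : ℤ) ∣ u j) :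
    Om u w p = univ.image (fun j => (rho p (u j) (w j)).val) := by
  classical
  ext r
  unfold Om LZ
  simp only [mem_filter, mem_range, mem_image, mem_univ, true_and]
  constructor
  · rintro ⟨h1, j, h2⟩
    rw [root (hu j)] at h2
    refine ⟨j, ?_⟩
    have h3 := h2.symm
    unfold Nat.ModEq at h3
    rw [Nat.mod_eq_of_lt (ZMod.val_lt _), Nat.mod_eq_of_lt h1] at h3
    exact h3
  · rintro ⟨j, rfl⟩
    refine ⟨ZMod.val_lt _, j, ?_⟩
    rw [root (hu j)]

theorem Om_card {k : ℕ} (u w : Option (Fin k) → ℤ) (p : ℕ) [Fact p.Prime]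
    (hu : ∀ j, ¬ (p : ℤ) ∣ u j) :
    (Om u w p).card = (univ.image (fun j => rho p (u j) (w j))).card := by
  classical
  rw [Om_eq u w p hu]
  have : (univ.image (fun j => (rho p (u j) (w j)).val)) =
      (univ.image (fun j => rho p (u j) (w j))).image ZMod.val := by
    rw [image_image]
    rfl
  rw [this, card_image_of_injective _ (ZMod.val_injective p)]

theorem rc : RootsCount := by
  classical
  intro k u w p hp hu
  have : Fact p.Prime := ⟨hp⟩
  refine ⟨?_, ?_, ?_, ?_⟩
  · intro i
    have h1 : OmI i u w p = (Om u w p).erase (rho p (u i) (w i)).val := by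
      ext r
      unfold OmI Om
      simp only [mem_filter, mem_range, mem_erase]
      constructor
      · rintro ⟨h1, h2, h3⟩
        refine ⟨?_, h1, h2⟩
        rintro rfl
        exact h3 ((root (hu i) _).2 rfl)
      · rintro ⟨h1, h2, h3⟩
        refine ⟨h2, h3, fun h => h1 ?_⟩
        have h4 := (root (hu i) _).1 h
        unfold Nat.ModEq at h4
        rw [Nat.mod_eq_of_lt (ZMod.val_lt _), Nat.mod_eq_of_lt h2] at h4
        exact h4
    rw [h1]
    apply card_erase_add_one
    rw [Om_eq u w p hu]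
    exact mem_image.2 ⟨i, mem_univ _, rfl⟩
  · rw [Om_eq u w p hu]
    refine card_image_le.trans ?_
    rw [card_univ, Fintype.card_option, Fintype.card_fin]
  · intro j m n hmn
    unfold LZ
    rw [root (hu j), root (hu j)]
    exact ⟨fun h => hmn.symm.trans h, fun h => hmn.trans h⟩
  · intro s t hs
    have hsu : ∀ j, ¬ (p : ℤ) ∣ u j * s := by
      intro j h
      apply hu j
      rcases hs with rfl | rfl
      · simpa using h
      · simpa using h
    rw [Om_card _ _ p hsu, Om_card u w p hu]
    have hs0 : (s : ZMod p) * s = 1 := by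
      rcases hs with rfl | rfl <;> simp
    have h1 : (univ.image (fun j => rho p (u j * s) (u j * t + w j))) =
        (univ.image (fun j => rho p (u j) (w j))).image (fun x => (s : ZMod p) * (x - t)) := by
      rw [image_image]
      apply image_congr
      intro j _
      have hu0 : ((u j : ℤ) : ZMod p) ≠ 0 := fun h =>
        hu j ((ZMod.intCast_zmod_eq_zero_iff_dvd (u j) p).1 h)
      have hs1 : (s : ZMod p) ≠ 0 := by
        intro h
        rw [h, mul_zero] at hs0
        exact zero_ne_one hs0
      simp only [Function.comp_apply]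
      unfold rho
      push_cast
      rw [div_eq_iff (mul_ne_zero hu0 hs1)]
      field_simp
      linear_combination (-(w j : ZMod p) - (t : ZMod p) * (u j : ZMod p)) * (-hs0)
    rw [h1]
    apply card_image_of_injective
    intro x y hxy
    have h2 : (s : ZMod p) * (s * (x - t)) = s * (s * (y - t)) := congrArg _ hxy
    linear_combination h2 - (x - y) * hs0

end Pool.Agent.W398.UNFO
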